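import Pool.Agent.H95.CG.Targets

/-!
Module FM: the contribution of the unit ideal.
-/

set_option autoImplicit false

open NumberField NumberField.InfinitePlace NumberField.Units
  NumberField.Units.dirichletUnitTheorem MeasureTheory Set Filter Complex
open scoped nonZeroDivisors ENNReal

namespace Pool.Agent.H39.CG

open Pool.Agent.H95.CG Pool.Agent.H25.HK

theorem tsum_lintegral_le {ι α : Type*} [MeasurableSpace α] (μ : Measure α) (f : ι → α → ℝ≥0∞)
    (hf : ∀ i, Measurable (f i)) : ∑' i, ∫⁻ t, f i t ∂μ ≤ ∫⁻ t, ∑' i, f i t ∂μ := by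
  rw [ENNReal.tsum_eq_iSup_sum]
  refine iSup_le fun s => ?_
  rw [← lintegral_finsetSum s (fun i _ => hf i)]
  exact lintegral_mono fun t => ENNReal.sum_le_tsum s

section
variable (K : Type) [Field K] [NumberField K]

theorem cv_one : cv K 1 = Real.sqrt |(discr K : ℝ)| := by
  unfold cv
  simp

theorem one_le_absD : (1 : ℝ) ≤ |(discr K : ℝ)| := by
  have h := Int.one_le_abs (NumberField.discr_ne_zero K)
  exact_mod_cast h

theorem card_places_le : Fintype.card (InfinitePlace K) ≤ Module.finrank ℚ K := by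
  rw [← NumberField.InfinitePlace.sum_mult_eq (K := K), Fintype.card, Finset.card_eq_sum_ones]
  apply Finset.sum_le_sum
  intro v _
  exact Nat.one_le_iff_ne_zero.2 (NumberField.InfinitePlace.mult_ne_zero)

open scoped Classical in
/-- the coordinates on the unit box -/
theorem yc_le (z : logSpace K) (hz : ∀ w, |z w| ≤ 1) (v : InfinitePlace K) :
    yc K 0 z v ≤ 2 * Module.finrank ℚ K := by
  have hm : (1 : ℝ) ≤ (v.mult : ℝ) := by
    exact_mod_cast Nat.one_le_iff_ne_zero.2 (NumberField.InfinitePlace.mult_ne_zero (w := v))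
  have hn : (1 : ℝ) ≤ (Module.finrank ℚ K : ℝ) := by
    exact_mod_cast Nat.one_le_iff_ne_zero.2 (Module.finrank_pos (R := ℚ) (M := K)).ne'
  unfold yc
  simp only [mul_zero, zero_div, zero_add]
  split_ifs with h
  · have h1 : |∑ w, z w| ≤ Module.finrank ℚ K := by
      calc |∑ w, z w| ≤ ∑ w, |z w| := Finset.abs_sum_le_sum_abs _ _
        _ ≤ ∑ w : {w : InfinitePlace K // w ≠ w₀}, (1 : ℝ) := Finset.sum_le_sum fun w _ => hz w
        _ = Fintype.card {w : InfinitePlace K // w ≠ w₀} := by simp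
        _ ≤ Fintype.card (InfinitePlace K) := by exact_mod_cast Fintype.card_subtype_le _
        _ ≤ Module.finrank ℚ K := by exact_mod_cast card_places_le K
    have h2 : 2 / (v.mult : ℝ) ≤ 2 := by
      rw [div_le_iff₀ (by linarith)]
      linarith
    calc -(2 / (v.mult : ℝ)) * ∑ w, z w ≤ |-(2 / (v.mult : ℝ)) * ∑ w, z w| := le_abs_self _
      _ = (2 / (v.mult : ℝ)) * |∑ w, z w| := by
        rw [abs_mul, abs_neg, abs_of_nonneg (by positivity)]
      _ ≤ 2 * Module.finrank ℚ K := by gcongr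
  · have h1 := (abs_le.1 (hz ⟨v, h⟩)).2
    calc 2 * z ⟨v, h⟩ / v.mult ≤ 2 * 1 / 1 := by
          rcases le_or_gt (z ⟨v, h⟩) 0 with h0 | h0
          · have : 2 * z ⟨v, h⟩ / (v.mult : ℝ) ≤ 0 :=
              div_nonpos_of_nonpos_of_nonneg (by linarith) (by linarith)
            linarith
          · gcongr
      _ ≤ 2 * Module.finrank ℚ K := by linarith

/-- the quadratic form at `1` on the unit box -/
theorem qK_le (hYC : T_YC) (τ : ℝ) (z : logSpace K) (hz : ∀ w, |z w| ≤ 1) :
    qK K (yc K τ z) 1 ≤ Real.exp (2 * τ / Module.finrank ℚ K) *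
      (Module.finrank ℚ K * Real.exp (2 * Module.finrank ℚ K)) := by
  have h4 := (hYC K).2.2.2.1
  unfold qK
  calc ∑ v : InfinitePlace K, (v.mult : ℝ) * Real.exp (yc K τ z v) * (v (1 : K)) ^ 2
      = ∑ v : InfinitePlace K, (v.mult : ℝ) * (Real.exp (2 * τ / Module.finrank ℚ K) *
          Real.exp (yc K 0 z v)) := by
        apply Finset.sum_congr rfl
        intro v _
        rw [map_one, one_pow, mul_one, h4, Real.exp_add]
    _ ≤ ∑ v : InfinitePlace K, (v.mult : ℝ) * (Real.exp (2 * τ / Module.finrank ℚ K) *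
          Real.exp (2 * Module.finrank ℚ K)) := by
        apply Finset.sum_le_sum
        intro v _
        have := yc_le K z hz v
        gcongr
    _ = Real.exp (2 * τ / Module.finrank ℚ K) *
      (Module.finrank ℚ K * Real.exp (2 * Module.finrank ℚ K)) := by
        rw [← Finset.sum_mul, ← Nat.cast_sum, NumberField.InfinitePlace.sum_mult_eq]
        ring

/-- the units give a lower bound for the theta function -/
theorem th_ge (hTH : T_TH) (y : InfinitePlace K → ℝ) :
    ∑' u : (𝓞 K)ˣ, ENNReal.ofReal (Real.exp (-Real.pi * qK K y (u : K))) ≤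
      ENNReal.ofReal (th K 1 y - 1) := by
  have hs := (hTH K 1 one_ne_zero y).1
  have h1 : ENNReal.ofReal (th K 1 y) =
      ∑' x : {x : K // x ∈ (1 : FI K)}, ENNReal.ofReal (Real.exp (-Real.pi * qK K y x)) := by
    unfold th
    exact ENNReal.ofReal_tsum_of_nonneg (fun x => (Real.exp_pos _).le) hs
  have hmem : ∀ u : (𝓞 K)ˣ, (u : K) ∈ (1 : FI K) := fun u =>
    FractionalIdeal.mem_one_iff _ |>.2 ⟨(u : 𝓞 K), rfl⟩
  set φ : (𝓞 K)ˣ → {x : K // x ∈ (1 : FI K)} := fun u => ⟨(u : K), hmem u⟩ with hφ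
  have hinj : Function.Injective φ := by
    intro u v h
    have h' := congrArg Subtype.val h
    simp only [hφ] at h'
    ext
    exact h'
  set x0 : {x : K // x ∈ (1 : FI K)} := ⟨0, Submodule.zero_mem _⟩ with hx0
  have hne : ∀ u, φ u ≠ x0 := by
    intro u h
    have h' := congrArg Subtype.val h
    simp [hφ, hx0] at h'
  have h2 : 1 + ∑' u : (𝓞 K)ˣ, ENNReal.ofReal (Real.exp (-Real.pi * qK K y (u : K))) ≤
      ENNReal.ofReal (th K 1 y) := by
    classical
    rw [h1, ENNReal.tsum_eq_add_tsum_ite x0]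
    have h3 := ENNReal.tsum_comp_le_tsum_of_injective hinj
      (fun x : {x : K // x ∈ (1 : FI K)} => if x = x0 then 0 else
        ENNReal.ofReal (Real.exp (-Real.pi * qK K y x)))
    simp only [hne, if_false] at h3
    refine add_le_add ?_ (le_of_le_of_eq h3 ?_)
    · simp [hx0, qK]
    · congr 1
      funext x
      congr 1
  rw [ENNReal.ofReal_sub _ zero_le_one, ENNReal.ofReal_one]
  exact ENNReal.le_sub_of_add_le_left ENNReal.one_ne_top h2

/-- the Gaussian at `1`, as a function of both variables -/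
noncomputable def GG (z : logSpace K) (t : ℝ) : ℝ≥0∞ :=
  ENNReal.ofReal (Real.exp (-Real.pi * qK K (yc K (Real.log (t / cv K 1)) z) 1)) *
    ENNReal.ofReal (t ^ (-(1 / 2) : ℝ))

theorem GG_meas (hYC : T_YC) : Measurable (fun p : logSpace K × ℝ => GG K p.1 p.2) := by
  have hc := (hYC K).2.2.2.2.1
  have h1 : Measurable (fun p : logSpace K × ℝ => yc K (Real.log (p.2 / cv K 1)) p.1) :=
    hc.measurable.comp (Measurable.prodMk
      (Real.measurable_log.comp (measurable_snd.div_const _)) measurable_fst)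
  have h2 : Measurable (fun y : InfinitePlace K → ℝ => qK K y 1) := by
    unfold qK
    fun_prop
  have h3 : Measurable (fun p : logSpace K × ℝ =>
      ENNReal.ofReal (Real.exp (-Real.pi * qK K (yc K (Real.log (p.2 / cv K 1)) p.1) 1))) :=
    (Real.measurable_exp.comp ((h2.comp h1).const_mul _)).ennreal_ofReal
  have h4 : Measurable (fun p : logSpace K × ℝ => ENNReal.ofReal (p.2 ^ (-(1 / 2) : ℝ))) :=
    (measurable_snd.pow_const _).ennreal_ofReal
  exact h3.mul h4

/-- the pointwise lower bound -/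
theorem GG_ge (hYC : T_YC) (z : logSpace K) (hz : ∀ w, |z w| ≤ 1) :
    ENNReal.ofReal (Real.exp (-(4 * Real.pi * (Module.finrank ℚ K *
      Real.exp (2 * Module.finrank ℚ K)))) / 2 * |(discr K : ℝ)| ^ (1 / 4 : ℝ)) ≤
      ∫⁻ t in Ioi (1 : ℝ), GG K z t := by
  set n : ℝ := (Module.finrank ℚ K : ℝ) with hn
  have hn1 : 1 ≤ n := by
    rw [hn]
    exact_mod_cast Nat.one_le_iff_ne_zero.2 (Module.finrank_pos (R := ℚ) (M := K)).ne'
  set q : ℝ := Real.sqrt |(discr K : ℝ)| with hq
  have hq1 : 1 ≤ q := Real.one_le_sqrt.2 (one_le_absD K)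
  set E : ℝ := n * Real.exp (2 * n) with hE
  have hE0 : 0 < E := by positivity
  have hsub : Ioc q (2 * q) ⊆ Ioi (1 : ℝ) := fun t ht => lt_of_le_of_lt hq1 ht.1
  have hpt : ∀ t ∈ Ioc q (2 * q), ENNReal.ofReal (Real.exp (-(4 * Real.pi * E)) *
      (2 * q) ^ (-(1 / 2) : ℝ)) ≤ GG K z t := by
    intro t ht
    have ht0 : 0 < t := by linarith [ht.1]
    unfold GG
    rw [ENNReal.ofReal_mul (Real.exp_pos _).le]
    apply mul_le_mul'
    · apply ENNReal.ofReal_le_ofReal
      apply Real.exp_le_exp.2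
      have h1 := qK_le K hYC (Real.log (t / cv K 1)) z hz
      rw [cv_one, ← hq, ← hn, ← hE] at h1
      have h2 : Real.exp (2 * Real.log (t / q) / n) ≤ 4 := by
        have h3 : Real.log (t / q) ≤ Real.log 2 := by
          apply Real.log_le_log (by positivity)
          rw [div_le_iff₀ (by linarith)]
          exact ht.2
        have h4 : 0 ≤ Real.log (t / q) := by
          apply Real.log_nonneg
          rw [one_le_div (by linarith)]
          exact ht.1.le
        calc Real.exp (2 * Real.log (t / q) / n) ≤ Real.exp (2 * Real.log 2) := by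
              apply Real.exp_le_exp.2
              calc 2 * Real.log (t / q) / n ≤ 2 * Real.log (t / q) / 1 := by gcongr
                _ ≤ 2 * Real.log 2 := by linarith
          _ = 4 := by
              rw [show 2 * Real.log 2 = Real.log 2 + Real.log 2 by ring, Real.exp_add,
                Real.exp_log (by norm_num)]
              norm_num
      rw [cv_one, ← hq]
      have h5 : qK K (yc K (Real.log (t / q)) z) 1 ≤ 4 * E :=
        h1.trans (mul_le_mul_of_nonneg_right h2 hE0.le)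
      nlinarith [Real.pi_pos]
    · apply ENNReal.ofReal_le_ofReal
      exact Real.rpow_le_rpow_of_nonpos ht0 ht.2 (by norm_num)
  calc _ ≤ ∫⁻ t in Ioc q (2 * q), ENNReal.ofReal (Real.exp (-(4 * Real.pi * E)) *
      (2 * q) ^ (-(1 / 2) : ℝ)) := by
        rw [lintegral_const, Measure.restrict_apply MeasurableSet.univ, univ_inter,
          Real.volume_Ioc, ← ENNReal.ofReal_mul (by positivity)]
        apply ENNReal.ofReal_le_ofReal
        have h6 : 2 * q - q = q := by ring
        rw [h6]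
        have h7 : |(discr K : ℝ)| ^ (1 / 4 : ℝ) = q ^ (1 / 2 : ℝ) := by
          rw [hq, Real.sqrt_eq_rpow, ← Real.rpow_mul (abs_nonneg _)]
          norm_num
        have h8 : (2 * q) ^ (-(1 / 2) : ℝ) = (2 : ℝ) ^ (-(1 / 2) : ℝ) * q ^ (-(1 / 2) : ℝ) :=
          Real.mul_rpow (by norm_num) (by linarith)
        have h9 : q ^ (-(1 / 2) : ℝ) * q = q ^ (1 / 2 : ℝ) := by
          nth_rewrite 2 [← Real.rpow_one q]
          rw [← Real.rpow_add (by linarith)]
          norm_num
        have h10 : (1 / 2 : ℝ) ≤ (2 : ℝ) ^ (-(1 / 2) : ℝ) := by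
          calc (1 / 2 : ℝ) = (2 : ℝ) ^ (-1 : ℝ) := by
                rw [Real.rpow_neg_one]; norm_num
            _ ≤ _ := Real.rpow_le_rpow_of_exponent_le (by norm_num) (by norm_num)
        rw [h7, h8]
        have h11 : 0 ≤ q ^ (1 / 2 : ℝ) := by positivity
        calc Real.exp (-(4 * Real.pi * E)) / 2 * q ^ (1 / 2 : ℝ)
            = Real.exp (-(4 * Real.pi * E)) * (1 / 2) * q ^ (1 / 2 : ℝ) := by ring
          _ ≤ Real.exp (-(4 * Real.pi * E)) * (2 : ℝ) ^ (-(1 / 2) : ℝ) * q ^ (1 / 2 : ℝ) := by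
              gcongr
          _ = _ := by rw [← h9]; ring
    _ ≤ ∫⁻ t in Ioc q (2 * q), GG K z t := by
        apply setLIntegral_mono' measurableSet_Ioc hpt
    _ ≤ _ := lintegral_mono_set hsub

/-- the integral of the Gaussian over `t` -/
noncomputable def GI (z : logSpace K) : ℝ≥0∞ := ∫⁻ t in Ioi (1 : ℝ), GG K z t

theorem GI_meas (hYC : T_YC) : Measurable (GI K) :=
  Measurable.lintegral_prod_right' (GG_meas K hYC)

theorem GG_meas1 (hYC : T_YC) (z : logSpace K) : Measurable (GG K z) :=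
  Measurable.of_uncurry_left (f := GG K) (GG_meas K hYC)

theorem GI_step (hYC : T_YC) (hUI : T_UI) (hTH : T_TH) (z : logSpace K) :
    ∑' u : (𝓞 K)ˣ, GI K (z + logEmbedding K (Additive.ofMul u)) ≤
      ∫⁻ t in Ioi (1 : ℝ), ENNReal.ofReal ((tn K 1 t z - 1) * t ^ (-(1 / 2) : ℝ)) := by
  have hm : ∀ u : (𝓞 K)ˣ, Measurable (fun t => GG K (z + logEmbedding K (Additive.ofMul u)) t) :=
    fun u => GG_meas1 K hYC _
  refine (tsum_lintegral_le (volume.restrict (Ioi (1 : ℝ)))
    (fun u t => GG K (z + logEmbedding K (Additive.ofMul u)) t) hm).trans ?_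
  apply lintegral_mono
  intro t
  change ∑' u : (𝓞 K)ˣ, GG K (z + logEmbedding K (Additive.ofMul u)) t ≤
    ENNReal.ofReal ((tn K 1 t z - 1) * t ^ (-(1 / 2) : ℝ))
  rcases le_or_gt 0 (t ^ (-(1 / 2) : ℝ)) with h0 | h0
  · rw [ENNReal.ofReal_mul' h0]
    unfold GG
    rw [ENNReal.tsum_mul_right]
    have h1 := th_ge K hTH (yc K (Real.log (t / cv K 1)) z)
    have h2 : ∀ u : (𝓞 K)ˣ, ENNReal.ofReal (Real.exp (-Real.pi * qK K (yc K (Real.log (t / cv K 1))
        (z + logEmbedding K (Additive.ofMul u))) 1)) =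
        ENNReal.ofReal (Real.exp (-Real.pi * qK K (yc K (Real.log (t / cv K 1)) z) (u : K))) := by
      intro u
      rw [(hUI K 1 (Real.log (t / cv K 1)) z u).1 1, mul_one]
    rw [tsum_congr h2]
    exact mul_le_mul' h1 le_rfl
  · have h3 : ENNReal.ofReal (t ^ (-(1 / 2) : ℝ)) = 0 := ENNReal.ofReal_of_nonpos h0.le
    simp only [GG, h3, mul_zero, tsum_zero]
    exact zero_le

open scoped Classical in
theorem Ir_ge (hFD : T_FD) (hUN : T_UN) (hYC : T_YC) (hUI : T_UI) (hTH : T_TH) (hIF : T_IF) :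
    (torsionOrder K : ℝ≥0∞) * ∫⁻ z, GI K z ≤ ENNReal.ofReal (Ir K 1) := by
  obtain ⟨_, _, _, hI, _⟩ := hIF K 1 one_ne_zero
  obtain ⟨_, _, _, _, hF, _⟩ := hFD K
  rw [hI, ← hF (GI K) (GI_meas K hYC), ← lintegral_const_mul' _ _ (ENNReal.natCast_ne_top _)]
  apply lintegral_mono
  intro z
  have h1 := hUN K (fun y => GI K (z + y))
  have h2 := GI_step K hYC hUI hTH z
  exact (le_of_eq h1.symm).trans h2

open scoped Classical in
theorem GI_int_ge (hYC : T_YC) :
    ENNReal.ofReal (Real.exp (-(4 * Real.pi * (Module.finrank ℚ K *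
      Real.exp (2 * Module.finrank ℚ K)))) / 2 * |(discr K : ℝ)| ^ (1 / 4 : ℝ)) ≤
      ∫⁻ z, GI K z := by
  set c : ℝ≥0∞ := ENNReal.ofReal (Real.exp (-(4 * Real.pi * (Module.finrank ℚ K *
      Real.exp (2 * Module.finrank ℚ K)))) / 2 * |(discr K : ℝ)| ^ (1 / 4 : ℝ)) with hc
  set B : Set (logSpace K) := Icc (fun _ => -1) (fun _ => 1) with hB
  have hvol : 1 ≤ volume B := by
    rw [hB, Real.volume_Icc_pi]
    apply Finset.one_le_prod''
    intro w
    rw [← ENNReal.ofReal_one]
    exact ENNReal.ofReal_le_ofReal (by norm_num)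
  have hBm : ∀ z ∈ B, c ≤ GI K z := fun z hz =>
    GG_ge K hYC z (fun w => abs_le.2 ⟨hz.1 w, hz.2 w⟩)
  calc c = c * 1 := (mul_one _).symm
    _ ≤ c * volume B := by gcongr
    _ = ∫⁻ z in B, c := by
        rw [lintegral_const, Measure.restrict_apply MeasurableSet.univ, univ_inter]
    _ ≤ ∫⁻ z in B, GI K z := setLIntegral_mono' measurableSet_Icc hBm
    _ ≤ ∫⁻ z, GI K z := setLIntegral_le_lintegral _ _

end

theorem pf_fm (hFD : T_FD) (hUN : T_UN) (hYC : T_YC) (hUI : T_UI) (hTH : T_TH) (hIF : T_IF) :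
    T_FM := by
  intro n hn
  refine ⟨Real.exp (-(4 * Real.pi * (n * Real.exp (2 * n)))) / 2, by positivity, ?_⟩
  intro K _ _ hK
  have hI0 := (hIF K 1 one_ne_zero).1
  have h2 := Ir_ge K hFD hUN hYC hUI hTH hIF
  have h3 := GI_int_ge K hYC
  rw [hK] at h3
  have h4 : ENNReal.ofReal (Real.exp (-(4 * Real.pi * (n * Real.exp (2 * n)))) / 2 *
      torsionOrder K * |(discr K : ℝ)| ^ (1 / 4 : ℝ)) ≤ ENNReal.ofReal (Ir K 1) := by
    calc ENNReal.ofReal (Real.exp (-(4 * Real.pi * (n * Real.exp (2 * n)))) / 2 *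
          torsionOrder K * |(discr K : ℝ)| ^ (1 / 4 : ℝ))
        = (torsionOrder K : ℝ≥0∞) * ENNReal.ofReal (Real.exp (-(4 * Real.pi *
          (n * Real.exp (2 * n)))) / 2 * |(discr K : ℝ)| ^ (1 / 4 : ℝ)) := by
          rw [← ENNReal.ofReal_natCast, ← ENNReal.ofReal_mul (Nat.cast_nonneg _)]
          congr 1
          ring
      _ ≤ _ := (mul_le_mul' le_rfl h3).trans h2
  exact (ENNReal.ofReal_le_ofReal_iff hI0).1 h4

end Pool.Agent.H39.CG
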